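import Pool.Agent.D0H10.DF.Stm

/-!
# The coefficients of the face polynomial
-/

set_option autoImplicit false

namespace Pool.Agent.D0H10.DF

open Finset Polynomial Pool.Agent.R580.CD

theorem t_COEF : S_COEF := by
  classical
  intro V _ _ G s
  unfold fp kq
  rw [Polynomial.finsetSum_coeff]
  have h1 : {T : Finset V | G.IsClique (T : Set V) ∧ T.card = s} =
      (((Finset.univ : Finset (Finset V)).filter (fun T => G.IsClique (T : Set V) ∧ T.card = s) :
        Finset (Finset V)) : Set (Finset V)) := by
    ext T
    simp
  rw [h1, Set.ncard_coe_finset, Finset.card_filter]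
  push_cast
  refine Finset.sum_congr rfl fun T _ => ?_
  by_cases hT : G.IsClique (T : Set V)
  · rw [if_pos ⟨hT, Set.subset_univ _⟩, Polynomial.coeff_X_pow]
    by_cases hs : T.card = s
    · rw [if_pos hs.symm, if_pos ⟨hT, hs⟩]
    · rw [if_neg (fun h => hs h.symm), if_neg (fun h => hs h.2)]
  · rw [if_neg (fun h => hT h.1), if_neg (fun h => hT h.1), Polynomial.coeff_zero]

theorem kq_zero {V : Type} (G : SimpleGraph V) : kq G 0 = 1 := by
  unfold kq
  have h : {T : Finset V | G.IsClique (T : Set V) ∧ T.card = 0} = {∅} := by
    ext T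
    simp only [Set.mem_setOf_eq, Finset.card_eq_zero, Set.mem_singleton_iff]
    constructor
    · exact fun h => h.2
    · rintro rfl
      simp
  rw [h, Set.ncard_singleton]

theorem kq_one {V : Type} [Fintype V] (G : SimpleGraph V) : kq G 1 = Fintype.card V := by
  classical
  unfold kq
  have h : {T : Finset V | G.IsClique (T : Set V) ∧ T.card = 1} =
      (((Finset.univ : Finset V).map ⟨fun v => {v}, Finset.singleton_injective⟩ : Finset (Finset V)) :
        Set (Finset V)) := by
    ext T
    simp only [Set.mem_setOf_eq, Finset.coe_map, Function.Embedding.coeFn_mk, Finset.coe_univ,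
      Set.image_univ, Set.mem_range]
    constructor
    · rintro ⟨_, h⟩
      obtain ⟨a, rfl⟩ := Finset.card_eq_one.mp h
      exact ⟨a, rfl⟩
    · rintro ⟨a, rfl⟩
      simp
  rw [h, Set.ncard_coe_finset, Finset.card_map, Finset.card_univ]

/-- the number of edges is at most `C(N, 2)` -/
theorem kq_two_le {V : Type} [Fintype V] (G : SimpleGraph V) :
    2 * kq G 2 ≤ Fintype.card V * (Fintype.card V - 1) := by
  classical
  have h1 : kq G 2 ≤ (Fintype.card V).choose 2 := by
    unfold kq
    calc {T : Finset V | G.IsClique (T : Set V) ∧ T.card = 2}.ncard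
        ≤ (((Finset.univ : Finset V).powersetCard 2 : Finset (Finset V)) : Set (Finset V)).ncard := by
          refine Set.ncard_le_ncard ?_ (Finset.finite_toSet _)
          rintro T ⟨_, h⟩
          rw [Finset.mem_coe, Finset.mem_powersetCard]
          exact ⟨Finset.subset_univ _, h⟩
      _ = _ := by rw [Set.ncard_coe_finset, Finset.card_powersetCard, Finset.card_univ]
  have h2 : 2 * (Fintype.card V).choose 2 = Fintype.card V * (Fintype.card V - 1) := by
    rw [Nat.choose_two_right, mul_comm, Nat.div_mul_cancel]
    exact (Nat.even_mul_pred_self _).two_dvd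
  omega

end Pool.Agent.D0H10.DF
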