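import Pool.Agent.D0H10.DF.Rat

/-!
# The Charney-Davis inequality for dense flag homology spheres
-/

set_option autoImplicit false

namespace Pool.Agent.D0H10.DF

open Finset Polynomial Pool.Agent.R580.CD

/-- an alternating sum of an increasing sequence is at least its lowest block -/
theorem alt_pos (c : ℕ → ℝ) (h0 : 0 < c 0) : ∀ m : ℕ, (∀ j, j < m → c j ≤ c (j + 1)) →
    (0 < m → c 0 < c 1) → 0 < ∑ j ∈ range (m + 1), (-1) ^ (m - j) * c j := by
  intro m
  induction m using Nat.strong_induction_on with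
  | _ m ih =>
    intro hmono h01
    rcases Nat.lt_or_ge m 2 with hm | hm
    · interval_cases m
      · simpa using h0
      · rw [Finset.sum_range_succ, Finset.sum_range_succ, Finset.sum_range_zero]
        have := h01 one_pos
        simp only [Nat.sub_zero, pow_one, Nat.sub_self, pow_zero, one_mul, zero_add]
        linarith
    · obtain ⟨k, rfl⟩ : ∃ k, m = k + 2 := ⟨m - 2, by omega⟩
      have h1 := ih k (by omega) (fun j hj => hmono j (by omega)) (fun _ => h01 (by omega))
      rw [Finset.sum_range_succ, Finset.sum_range_succ]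
      have h2 : ∑ j ∈ range (k + 1), (-1 : ℝ) ^ (k + 2 - j) * c j =
          ∑ j ∈ range (k + 1), (-1) ^ (k - j) * c j := by
        refine Finset.sum_congr rfl fun j hj => ?_
        have hj' : j ≤ k := by
          rw [Finset.mem_range] at hj
          omega
        rw [show k + 2 - j = (k - j) + 2 by omega, pow_add]
        norm_num
      rw [h2, show k + 2 - (k + 1) = 1 by omega, Nat.sub_self]
      have h3 := hmono (k + 1) (by omega)
      simp only [pow_one, pow_zero, one_mul]
      have h4 : c (k + 1 + 1) = c (k + 2) := rfl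
      rw [h4] at h3
      linarith

/-- the inequality from the Dehn-Sommerville relation -/
theorem dense_core (hMM : S_MM) (hPOLY : S_POLY) (hRB : S_RB) {V : Type} [Fintype V] [LinearOrder V]
    {G : SimpleGraph V} {m : ℕ} (hm : 2 ≤ m) (hN : 0 < Fintype.card V)
    (hdeg : (fp G Set.univ).natDegree ≤ 2 * m)
    (hds : (fp G Set.univ).comp (-1 - Polynomial.X) = fp G Set.univ)
    (he : ((m : ℝ) - 2) * (Fintype.card V : ℝ) ^ 2 + m * (m + 3) * Fintype.card V ≤
      2 * ((m : ℝ) - 1) * kq G 2) :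
    0 < (-1 : ℚ) ^ m * omega G := by
  have hm2 : (2 : ℝ) ≤ m := by exact_mod_cast hm
  have hD : (0 : ℝ) < m * (m + 3) := by positivity
  obtain ⟨hDN, hrat⟩ := t_RAT hMM V G m (m * (m + 3)) hm hD hN he
  obtain ⟨hb1, hb0, hbpos, hbr⟩ := hRB m
  -- the products `b_j k_j` increase
  set c : ℕ → ℝ := fun j => (b m j : ℝ) * (kq G j : ℝ) with hc
  have hc0 : 0 < c 0 := by
    rw [hc]
    simp only [kq_zero, hb0]
    push_cast
    positivity
  have hc01 : c 0 < c 1 := by
    rw [hc]
    simp only [kq_zero, kq_one]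
    have h1 := hbr 0 (by omega)
    have h2 : (b m 0 : ℝ) ≤ m * (m + 3) * b m 1 := by
      have : (((0 : ℕ) : ℤ) + 1) * b m 0 ≤ m * (m + 3) * b m (0 + 1) := h1
      have h3 : b m 0 ≤ m * (m + 3) * b m 1 := by simpa using this
      exact_mod_cast h3
    have h3 : (0 : ℝ) < b m 1 := by exact_mod_cast hbpos 1 (by omega)
    calc (b m 0 : ℝ) * ((1 : ℕ) : ℝ) = b m 0 := by simp
      _ ≤ m * (m + 3) * b m 1 := h2
      _ < (Fintype.card V : ℝ) * b m 1 := mul_lt_mul_of_pos_right hDN h3
      _ = _ := mul_comm _ _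
  have hmono : ∀ j, j < m → c j ≤ c (j + 1) := by
    intro j hj
    rcases Nat.eq_zero_or_pos j with rfl | hj1
    · exact hc01.le
    · obtain ⟨h1, h2⟩ := hrat j hj1 (by omega)
      have h3 := hbr j hj
      have h4 : ((j : ℝ) + 1) * b m j ≤ m * (m + 3) * b m (j + 1) := by exact_mod_cast h3
      have h5 : (0 : ℝ) < b m (j + 1) := by exact_mod_cast hbpos (j + 1) (by omega)
      have h6 : (0 : ℝ) < kq G j := by exact_mod_cast h1
      rw [hc]
      show (b m j : ℝ) * (kq G j : ℝ) ≤ (b m (j + 1) : ℝ) * (kq G (j + 1) : ℝ)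
      have h7 : ((j : ℝ) + 1) * ((b m j : ℝ) * (kq G j : ℝ)) ≤
          ((j : ℝ) + 1) * ((b m (j + 1) : ℝ) * (kq G (j + 1) : ℝ)) := by
        calc ((j : ℝ) + 1) * ((b m j : ℝ) * (kq G j : ℝ))
            = (((j : ℝ) + 1) * b m j) * kq G j := by ring
          _ ≤ (m * (m + 3) * b m (j + 1)) * kq G j := mul_le_mul_of_nonneg_right h4 h6.le
          _ = b m (j + 1) * (m * (m + 3) * kq G j) := by ring
          _ ≤ b m (j + 1) * (((j : ℝ) + 1) * (kq G (j + 1) : ℝ)) :=
            mul_le_mul_of_nonneg_left h2 h5.le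
          _ = _ := by ring
      exact le_of_mul_le_mul_left h7 (by positivity)
  have hpos := alt_pos c hc0 m hmono (fun _ => hc01)
  -- the value at `-1/2`
  have hval := hPOLY m (fp G Set.univ) hdeg hds
  rw [← omega_eq] at hval
  have h1 : (0 : ℚ) < ((∑ j ∈ range (m + 1), (-1) ^ (m - j) * b m j * (fp G Set.univ).coeff j : ℤ) :
      ℚ) := by
    have h2 : (0 : ℝ) < ((∑ j ∈ range (m + 1), (-1) ^ (m - j) * b m j * (fp G Set.univ).coeff j :
        ℤ) : ℝ) := by
      push_cast
      refine lt_of_lt_of_eq hpos ?_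
      refine Finset.sum_congr rfl fun j _ => ?_
      rw [t_COEF V G j]
      simp only [hc, Int.cast_natCast]
      ring
    exact_mod_cast h2
  rw [← hval] at h1
  have h3 : (-4 : ℚ) ^ m * omega G = 4 ^ m * ((-1) ^ m * omega G) := by
    rw [show (-4 : ℚ) = (-1) * 4 by norm_num, mul_pow]
    ring
  rw [h3] at h1
  exact pos_of_mul_pos_of_pos_left' h1 (by positivity)
where
  pos_of_mul_pos_of_pos_left' {a b : ℚ} (h : 0 < a * b) (ha : 0 < a) : 0 < b :=
    (mul_pos_iff_of_pos_left ha).mp h

theorem t_DENSE (hMM : S_MM) (hPOLY : S_POLY) (hRB : S_RB) : S_DENSE := by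
  intro F _ V _ _ G m hm hS he
  have hN : 0 < Fintype.card V := by
    obtain ⟨v, _⟩ := hS.exists_mem (T := ∅) (by simp) (by simp; omega)
    exact Fintype.card_pos_iff.mpr ⟨v⟩
  have hds := dehn_sommerville (2 * m) V G hS
  rw [pow_mul, neg_one_sq, one_pow, one_mul] at hds
  exact dense_core hMM hPOLY hRB hm hN (fp_natDegree hS) hds he

/-- Eulerian of even rank: the sum of the `(-1)^|R|` over the cliques `R ⊇ T` is `1`, for every clique `T`
(the empty one included). -/
def Eulerian {V : Type} [Fintype V] (G : SimpleGraph V) : Prop :=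
  ∀ T : Finset V, G.IsClique (T : Set V) →
    ∑ᶠ R ∈ {R : Finset V | T ⊆ R ∧ G.IsClique (R : Set V)}, (-1 : ℤ) ^ R.card = 1

/-- the Dehn-Sommerville relations -/
theorem Eulerian.ds {V : Type} [Fintype V] [LinearOrder V] {G : SimpleGraph V} (hG : Eulerian G) :
    (fp G Set.univ).comp (-1 - Polynomial.X) = fp G Set.univ := by
  classical
  have hE : ∀ T : Finset V, G.IsClique (T : Set V) →
      ∑ R : Finset V, (if T ⊆ R ∧ G.IsClique (R : Set V) then (-1 : ℤ) ^ R.card else 0) = 1 := by
    intro T hT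
    have h1 := hG T hT
    have h2 : {R : Finset V | T ⊆ R ∧ G.IsClique (R : Set V)} =
        (((Finset.univ : Finset (Finset V)).filter (fun R => T ⊆ R ∧ G.IsClique (R : Set V)) :
          Finset (Finset V)) : Set (Finset V)) := by
      ext R
      simp
    rw [h2, finsum_mem_coe_finset, Finset.sum_filter] at h1
    exact h1
  have hfp : fp G Set.univ = ∑ T : Finset V, if G.IsClique (T : Set V) then
      (Polynomial.X : ℤ[X]) ^ T.card else 0 := by
    unfold fp
    refine Finset.sum_congr rfl fun T _ => ?_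
    by_cases hT : G.IsClique (T : Set V)
    · rw [if_pos ⟨hT, Set.subset_univ _⟩, if_pos hT]
    · rw [if_neg (fun h => hT h.1), if_neg hT]
  have h1 : (fp G Set.univ).comp (-1 - Polynomial.X) = ∑ T : Finset V, if G.IsClique (T : Set V) then
      (-1 - Polynomial.X : ℤ[X]) ^ T.card else 0 := by
    rw [hfp, ← Polynomial.coe_compRingHom_apply, map_sum]
    refine Finset.sum_congr rfl fun T _ => ?_
    by_cases hT : G.IsClique (T : Set V)
    · rw [if_pos hT, if_pos hT, map_pow]
      congr 1
      exact Polynomial.X_comp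
    · rw [if_neg hT, if_neg hT, map_zero]
  have h2 : ∀ T : Finset V, G.IsClique (T : Set V) → (-1 - Polynomial.X : ℤ[X]) ^ T.card =
      ∑ R : Finset V, if R ⊆ T then (-1) ^ T.card * Polynomial.X ^ R.card else 0 := by
    intro T _
    have h3 : (-1 - Polynomial.X : ℤ[X]) ^ T.card = (-1) ^ T.card * (Polynomial.X + 1) ^ T.card := by
      rw [← mul_pow]; congr 1; ring
    rw [h3, ← Finset.sum_pow_mul_eq_add_pow, Finset.mul_sum, ← Finset.sum_filter]
    have h4 : (Finset.univ : Finset (Finset V)).filter (fun R => R ⊆ T) = T.powerset := by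
      ext R
      simp
    rw [h4]
    refine Finset.sum_congr rfl (fun R _ => ?_)
    rw [one_pow, mul_one]
  rw [h1, hfp]
  have h3 : ∀ T : Finset V, (if G.IsClique (T : Set V) then (-1 - Polynomial.X : ℤ[X]) ^ T.card else 0) =
      ∑ R : Finset V, if G.IsClique (T : Set V) ∧ R ⊆ T then (-1) ^ T.card * Polynomial.X ^ R.card
        else 0 := by
    intro T
    by_cases hT : G.IsClique (T : Set V)
    · rw [if_pos hT, h2 T hT]
      refine Finset.sum_congr rfl fun R _ => ?_
      by_cases hR : R ⊆ T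
      · rw [if_pos hR, if_pos ⟨hT, hR⟩]
      · rw [if_neg hR, if_neg (fun h => hR h.2)]
    · rw [if_neg hT]
      symm
      apply Finset.sum_eq_zero
      intro R _
      rw [if_neg (fun h => hT h.1)]
  rw [Finset.sum_congr rfl (fun T _ => h3 T), Finset.sum_comm]
  refine Finset.sum_congr rfl fun R _ => ?_
  by_cases hR : G.IsClique (R : Set V)
  · rw [if_pos hR]
    have h5 := congrArg (fun z : ℤ => (Polynomial.C z : ℤ[X])) (hE R hR)
    simp only [map_one] at h5
    rw [map_sum] at h5
    calc ∑ T : Finset V, (if G.IsClique (T : Set V) ∧ R ⊆ T then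
          (-1 : ℤ[X]) ^ T.card * Polynomial.X ^ R.card else 0)
        = (∑ T : Finset V, Polynomial.C (if R ⊆ T ∧ G.IsClique (T : Set V) then (-1 : ℤ) ^ T.card
            else 0)) * Polynomial.X ^ R.card := by
          rw [Finset.sum_mul]
          refine Finset.sum_congr rfl fun T _ => ?_
          by_cases h : R ⊆ T ∧ G.IsClique (T : Set V)
          · rw [if_pos h, if_pos ⟨h.2, h.1⟩]
            simp
          · rw [if_neg h, if_neg (fun h' => h ⟨h'.2, h'.1⟩)]
            simp
      _ = Polynomial.X ^ R.card := by rw [h5, one_mul]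
  · rw [if_neg hR]
    apply Finset.sum_eq_zero
    intro T _
    rw [if_neg]
    rintro ⟨hT, hRT⟩
    exact hR (hT.subset (by exact_mod_cast hRT))

theorem fp_natDegree_le {V : Type} [Fintype V] [LinearOrder V] {G : SimpleGraph V} {d : ℕ}
    (h : ∀ T : Finset V, G.IsClique (T : Set V) → T.card ≤ d) : (fp G Set.univ).natDegree ≤ d := by
  classical
  unfold fp
  refine Polynomial.natDegree_sum_le_of_forall_le _ _ fun T _ => ?_
  by_cases hT : G.IsClique (T : Set V) ∧ (T : Set V) ⊆ Set.univ
  · rw [if_pos hT, Polynomial.natDegree_X_pow]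
    exact h T hT.1
  · rw [if_neg hT, Polynomial.natDegree_zero]
    exact Nat.zero_le _

theorem dense_eulerian (hMM : S_MM) (hPOLY : S_POLY) (hRB : S_RB) {V : Type} [Fintype V] [Nonempty V]
    [LinearOrder V] {G : SimpleGraph V} {m : ℕ} (hm : 2 ≤ m) (hG : Eulerian G)
    (hd : ∀ T : Finset V, G.IsClique (T : Set V) → T.card ≤ 2 * m)
    (he : ((m : ℝ) - 2) * (Fintype.card V : ℝ) ^ 2 + m * (m + 3) * Fintype.card V ≤
      2 * ((m : ℝ) - 1) * kq G 2) :
    0 < (-1 : ℚ) ^ m * omega G :=
  dense_core hMM hPOLY hRB hm Fintype.card_pos (fp_natDegree_le hd) hG.ds he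

end Pool.Agent.D0H10.DF
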