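import Pool.Agent.D0H10.DF.Coef

/-!
# Dense counterexamples from one counterexample
-/

set_option autoImplicit false

namespace Pool.Agent.D0H10.DF

open Finset Polynomial Pool.Agent.R580.CD

theorem join_step {V : Type} [Fintype V] [LinearOrder V] {d : ℕ} {G : SimpleGraph V} (hS : GHS d G)
    {M : ℕ} (hM : 4 ≤ M) :
    ∃ (W : Type) (_ : Fintype W) (_ : LinearOrder W) (H : SimpleGraph W), GHS (d + 2) H ∧
      Fintype.card W = Fintype.card V + M ∧ omega H = (1 - M / 4) * omega G ∧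
      kq H 2 = kq G 2 + M * Fintype.card V + M := by
  refine ⟨V ⊕ₗ Fin M, inferInstance, inferInstance, jn G M, fun K _ => jn_sph hM (hS K), ?_, ?_, ?_⟩
  · show Fintype.card (V ⊕ Fin M) = _
    rw [Fintype.card_sum, Fintype.card_fin]
  · rw [omega_eq, omega_eq, fp_jn hM, map_mul, map_add, map_add, map_mul, map_mul, map_pow, ev_X, map_one,
      map_natCast]
    ring
  · have h1 := t_COEF _ (jn G M) 2
    rw [fp_jn hM, add_mul, add_mul, one_mul, mul_assoc, mul_assoc] at h1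
    have h2 : ((M : Polynomial ℤ) * (Polynomial.X * fp G Set.univ)).coeff 2 =
        M * (fp G Set.univ).coeff 1 := by
      rw [← Polynomial.C_eq_natCast, Polynomial.coeff_C_mul]
      congr 1
      exact Polynomial.coeff_X_mul _ 1
    have h3 : ((M : Polynomial ℤ) * (Polynomial.X ^ 2 * fp G Set.univ)).coeff 2 =
        M * (fp G Set.univ).coeff 0 := by
      rw [← Polynomial.C_eq_natCast, Polynomial.coeff_C_mul]
      congr 1
      exact Polynomial.coeff_X_pow_mul _ 2 0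
    rw [Polynomial.coeff_add, Polynomial.coeff_add, h2, h3, t_COEF V G 2, t_COEF V G 1, t_COEF V G 0,
      kq_one, kq_zero] at h1
    have h4 : ((kq (jn G M) 2 : ℕ) : ℤ) = ((kq G 2 + M * Fintype.card V + M : ℕ) : ℤ) := by
      rw [← h1]
      push_cast
      ring
    exact_mod_cast h4

/-- joins with `i` cycles of length `M` -/
theorem joins0 {V : Type} [Fintype V] [LinearOrder V] {n : ℕ} {G : SimpleGraph V} (hS : GHS (2 * n) G)
    {M : ℕ} (hM : 4 ≤ M) : ∀ i : ℕ,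
    ∃ (W : Type) (_ : Fintype W) (_ : LinearOrder W) (H : SimpleGraph W), GHS (2 * (n + i)) H ∧
      Fintype.card W = Fintype.card V + i * M ∧ omega H = (1 - (M : ℚ) / 4) ^ i * omega G ∧
      (kq H 2 : ℝ) = kq G 2 + i * M + i * M * Fintype.card V + i * (i - 1) / 2 * M ^ 2 := by
  intro i
  induction i with
  | zero => exact ⟨V, inferInstance, inferInstance, G, hS, by simp, by simp, by simp⟩
  | succ i ih =>
    obtain ⟨W, _, _, H, h1, h2, h3, h4⟩ := ih
    obtain ⟨W', i1, i2, H', h5, h6, h7, h8⟩ := join_step h1 (M := M) (by omega)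
    refine ⟨W', i1, i2, H', ?_, ?_, ?_, ?_⟩
    · rw [show 2 * (n + (i + 1)) = 2 * (n + i) + 2 by ring]
      exact h5
    · rw [h6, h2]
      ring
    · rw [h7, h3, pow_succ]
      ring
    · rw [h8]
      push_cast
      rw [h4, h2]
      push_cast
      ring

theorem joins {V : Type} [Fintype V] [LinearOrder V] {n : ℕ} {G : SimpleGraph V} (hS : GHS (2 * n) G)
    (hneg : (-1 : ℚ) ^ n * omega G < 0) {M : ℕ} (hM : 5 ≤ M) (i : ℕ) :
    ∃ (W : Type) (_ : Fintype W) (_ : LinearOrder W) (H : SimpleGraph W), GHS (2 * (n + i)) H ∧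
      Fintype.card W = Fintype.card V + i * M ∧ (-1 : ℚ) ^ (n + i) * omega H < 0 ∧
      (kq H 2 : ℝ) = kq G 2 + i * M + i * M * Fintype.card V + i * (i - 1) / 2 * M ^ 2 := by
  obtain ⟨W, i1, i2, H, h1, h2, h3, h4⟩ := joins0 hS (by omega : 4 ≤ M) i
  refine ⟨W, i1, i2, H, h1, h2, ?_, h4⟩
  have hM' : (5 : ℚ) ≤ M := by exact_mod_cast hM
  have h9 : (-1 : ℚ) ^ (n + i) * omega H = ((M : ℚ) / 4 - 1) ^ i * ((-1) ^ n * omega G) := by
    rw [h3, pow_add, show (1 - (M : ℚ) / 4) = (-1) * ((M : ℚ) / 4 - 1) by ring, mul_pow]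
    have : ((-1 : ℚ) ^ i) * (-1) ^ i = 1 := by
      rw [← mul_pow]
      norm_num
    linear_combination ((M : ℚ) / 4 - 1) ^ i * (-1) ^ n * omega G * this
  rw [h9]
  apply mul_neg_of_pos_of_neg _ hneg
  apply pow_pos
  linarith

/-- counterexamples with many vertices -/
theorem doubles {V : Type} [Fintype V] [LinearOrder V] {n : ℕ} {G : SimpleGraph V} (hn : 1 ≤ n)
    (hS : GHS (2 * n) G) (hneg : (-1 : ℚ) ^ n * omega G < 0) (B : ℕ) :
    ∃ (W : Type) (_ : Fintype W) (_ : LinearOrder W) (H : SimpleGraph W), GHS (2 * n) H ∧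
      B ≤ Fintype.card W ∧ (-1 : ℚ) ^ n * omega H < 0 := by
  have h0 : ∀ k : ℕ, ∃ (W : Type) (_ : Fintype W) (_ : LinearOrder W) (H : SimpleGraph W),
      GHS (2 * n) H ∧ omega H = 2 ^ k * omega G := by
    intro k
    induction k with
    | zero => exact ⟨V, inferInstance, inferInstance, G, hS, by simp⟩
    | succ k ih =>
      obtain ⟨W, _, _, H, h1, h3⟩ := ih
      obtain ⟨W', i1, i2, H', h4, _, h6⟩ := exists_double (by omega) h1
      refine ⟨W', i1, i2, H', h4, ?_⟩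
      rw [h6, h3, pow_succ]
      ring
  have hne : 0 < |omega G| := by
    rw [abs_pos]
    intro h
    rw [h, mul_zero] at hneg
    exact lt_irrefl _ hneg
  obtain ⟨k, hk⟩ : ∃ k : ℕ, 2 ^ B / |omega G| < 2 ^ k :=
    pow_unbounded_of_one_lt (2 ^ B / |omega G|) (one_lt_two (α := ℚ))
  obtain ⟨W, i1, i2, H, h1, h2⟩ := h0 k
  refine ⟨W, i1, i2, H, h1, ?_, ?_⟩
  · by_contra hcon
    push Not at hcon
    have h3 := omega_bound H
    rw [h2, abs_mul, abs_of_pos (by positivity : (0 : ℚ) < 2 ^ k)] at h3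
    rw [div_lt_iff₀ hne] at hk
    have h4 : (2 : ℚ) ^ Fintype.card W ≤ 2 ^ B := pow_le_pow_right₀ one_le_two hcon.le
    linarith
  · rw [h2]
    have h3 : (-1 : ℚ) ^ n * (2 ^ k * omega G) = 2 ^ k * ((-1) ^ n * omega G) := by ring
    rw [h3]
    exact mul_neg_of_pos_of_neg (by positivity) hneg

theorem t_EQV : S_EQV := by
  intro V _ _ G n j C hn hj hS hneg N
  have hj1 : (1 : ℝ) ≤ j := by exact_mod_cast hj
  obtain ⟨B, hB⟩ : ∃ B : ℕ, |C| * j + 1 ≤ B := exists_nat_ge _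
  obtain ⟨W₀, _, _, H₀, h1, h2, h3⟩ := doubles hn hS hneg B
  set N₀ : ℝ := (Fintype.card W₀ : ℝ) with hN₀
  have hN₀B : |C| * j + 1 ≤ N₀ := hB.trans (by rw [hN₀]; exact_mod_cast h2)
  have hN₀0 : 0 ≤ N₀ := Nat.cast_nonneg _
  obtain ⟨M, hM⟩ : ∃ M : ℕ, |C| * N₀ + N₀ ^ 2 + N + 5 ≤ M := exists_nat_ge _
  have hC0 : 0 ≤ |C| := abs_nonneg C
  have hNn : (0 : ℝ) ≤ N := Nat.cast_nonneg _
  have hM5 : 5 ≤ M := by
    have : (5 : ℝ) ≤ M := by
      have h9 : 0 ≤ |C| * N₀ := by positivity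
      have h10 : 0 ≤ N₀ ^ 2 := by positivity
      linarith
    exact_mod_cast this
  obtain ⟨W, i1, i2, H, h4, h5, h6, h7⟩ := joins h1 h3 hM5 j
  refine ⟨W, i1, i2, H, h4, ?_, ?_, h6⟩
  · have h8 : (N : ℝ) ≤ M := by
      have h9 : 0 ≤ |C| * N₀ := by positivity
      have h10 : 0 ≤ N₀ ^ 2 := by positivity
      linarith
    have h9 : N ≤ M := by exact_mod_cast h8
    rw [h5]
    nlinarith [Nat.zero_le (Fintype.card W₀)]
  · rw [h7, h5]
    push_cast
    rw [← hN₀]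
    have he0 : (0 : ℝ) ≤ kq H₀ 2 := Nat.cast_nonneg _
    have hMr : (5 : ℝ) ≤ M := by exact_mod_cast hM5
    -- the difference
    have h8 : (kq H₀ 2 : ℝ) + j * M + j * M * N₀ + j * (j - 1) / 2 * M ^ 2 -
        ((1 - 1 / (j : ℝ)) * (N₀ + j * M) ^ 2 / 2 + C * (N₀ + j * M)) =
        kq H₀ 2 + (N₀ + j - C * j) * M - (j - 1) / (2 * j) * N₀ ^ 2 - C * N₀ := by
      field_simp
      ring
    have hCj : C * j ≤ |C| * j := mul_le_mul_of_nonneg_right (le_abs_self C) (by linarith)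
    have h9 : (M : ℝ) ≤ (N₀ + j - C * j) * M := by
      have : (1 : ℝ) ≤ N₀ + j - C * j := by linarith
      nlinarith
    have h10 : ((j : ℝ) - 1) / (2 * j) * N₀ ^ 2 ≤ N₀ ^ 2 := by
      have h11 : ((j : ℝ) - 1) / (2 * j) ≤ 1 := by
        rw [div_le_one (by linarith)]
        linarith
      have h12 : 0 ≤ N₀ ^ 2 := by positivity
      nlinarith
    have h13 : C * N₀ ≤ |C| * N₀ := mul_le_mul_of_nonneg_right (le_abs_self C) hN₀0
    linarith

end Pool.Agent.D0H10.DF
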