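import Pool.Agent.D0H10.DF.Coef

/-!
# The ratios of the clique numbers of a dense graph
-/

set_option autoImplicit false

namespace Pool.Agent.D0H10.DF

open Finset Polynomial Pool.Agent.R580.CD

theorem t_RAT (hMM : S_MM) : S_RAT := by
  intro V _ G m D hm hD hN he
  set N : ℝ := (Fintype.card V : ℝ) with hNdef
  have hN0 : 0 < N := by rw [hNdef]; exact_mod_cast hN
  have hm2 : (2 : ℝ) ≤ m := by exact_mod_cast hm
  set e : ℝ := (kq G 2 : ℝ) with hedef
  have he2 : 2 * e ≤ N * (N - 1) := by
    have h := kq_two_le G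
    have h1 : ((2 * kq G 2 : ℕ) : ℝ) ≤ ((Fintype.card V * (Fintype.card V - 1) : ℕ) : ℝ) := by
      exact_mod_cast h
    rw [Nat.cast_mul, Nat.cast_mul, Nat.cast_sub hN] at h1
    push_cast at h1
    exact h1
  have h2e : 2 * e < N ^ 2 := by nlinarith
  have hDN : D < N := by
    have h1 : (m - 2) * N ^ 2 + D * N < (m - 1) * N ^ 2 := by
      calc (m - 2) * N ^ 2 + D * N ≤ 2 * (m - 1) * e := he
        _ = (m - 1) * (2 * e) := by ring
        _ < (m - 1) * N ^ 2 := by
          apply mul_lt_mul_of_pos_left h2e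
          linarith
    have h2 : D * N < N * N := by nlinarith
    exact lt_of_mul_lt_mul_right h2 hN0.le
  refine ⟨hDN, ?_⟩
  -- `u` with `2 e = (1 - u) N²`
  set u : ℝ := 1 - 2 * e / N ^ 2 with hu
  have hNsq : 0 < N ^ 2 := by positivity
  have hue : 2 * e = (1 - u) * N ^ 2 := by
    rw [hu]
    field_simp
    ring
  have hu0 : 0 < u := by
    rw [hu, sub_pos, div_lt_one hNsq]
    exact h2e
  have hmu : D ≤ N * (1 - (m - 1) * u) := by
    have h1 : (m - 2) * N ^ 2 + D * N ≤ (m - 1) * ((1 - u) * N ^ 2) := by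
      rw [← hue]
      linarith
    have h2 : D * N ≤ (N * (1 - (m - 1) * u)) * N := by nlinarith
    exact le_of_mul_le_mul_right h2 hN0
  have key : ∀ s : ℕ, 1 ≤ s → s + 1 ≤ m → 0 < kq G s ∧
      N * (1 - s * u) * kq G s ≤ (s + 1) * (kq G (s + 1) : ℝ) := by
    intro s hs
    induction s, hs using Nat.le_induction with
    | base =>
      intro _
      rw [kq_one]
      refine ⟨hN, ?_⟩
      rw [← hNdef, show (1 + 1 : ℕ) = 2 by norm_num, ← hedef]
      push_cast
      nlinarith [hue]
    | succ s hs ih =>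
      intro hsm
      obtain ⟨hpos, hle⟩ := ih (by omega)
      have hsm' : (s : ℝ) + 1 ≤ m - 1 := by
        have : ((s + 1 + 1 : ℕ) : ℝ) ≤ (m : ℝ) := by exact_mod_cast hsm
        push_cast at this
        linarith
      have hs1 : (1 : ℝ) ≤ s := by exact_mod_cast hs
      have hsu : 0 < 1 - (s : ℝ) * u := by
        have h1 : (s : ℝ) * u ≤ (m - 1) * u := by
          apply mul_le_mul_of_nonneg_right _ hu0.le
          linarith
        have h2 : 0 < N * (1 - (m - 1) * u) := lt_of_lt_of_le hD hmu
        have h3 : 0 < 1 - ((m : ℝ) - 1) * u := by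
          by_contra hcon
          push Not at hcon
          have := mul_nonpos_of_nonneg_of_nonpos hN0.le hcon
          linarith
        linarith
      set a : ℝ := (kq G s : ℝ) with ha
      set c : ℝ := (kq G (s + 1) : ℝ) with hc
      have hapos : 0 < a := by rw [ha]; exact_mod_cast hpos
      have hcpos : 0 < c := by
        have h1 : 0 < N * (1 - s * u) * a := by positivity
        have h2 : 0 < ((s : ℝ) + 1) * c := lt_of_lt_of_le h1 hle
        by_contra hcon
        push Not at hcon
        have := mul_nonpos_of_nonneg_of_nonpos (by linarith : (0 : ℝ) ≤ (s : ℝ) + 1) hcon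
        linarith
      refine ⟨by rw [hc] at hcpos; exact_mod_cast hcpos, ?_⟩
      have hmm := hMM V G s hs
      have hmmr : ((s : ℝ) + 1) ^ 2 * c ^ 2 ≤
          a * (s * (s + 2) * (kq G (s + 2) : ℝ) + N * c) := by
        rw [ha, hc, hNdef]
        exact_mod_cast hmm
      set f : ℝ := (kq G (s + 2) : ℝ) with hf
      -- use the induction hypothesis
      have h1 : ((s : ℝ) + 1) * c * (N * (1 - s * u) * a) ≤ ((s : ℝ) + 1) ^ 2 * c ^ 2 := by
        calc ((s : ℝ) + 1) * c * (N * (1 - s * u) * a)
            ≤ ((s : ℝ) + 1) * c * ((s + 1) * c) := by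
              apply mul_le_mul_of_nonneg_left hle
              positivity
          _ = _ := by ring
      have h2 : a * (((s : ℝ) + 1) * c * (N * (1 - s * u))) ≤ a * (s * (s + 2) * f + N * c) := by
        calc a * (((s : ℝ) + 1) * c * (N * (1 - s * u)))
            = ((s : ℝ) + 1) * c * (N * (1 - s * u) * a) := by ring
          _ ≤ _ := h1.trans hmmr
      have h3 := le_of_mul_le_mul_left h2 hapos
      have h4 : (s : ℝ) * (N * (1 - (s + 1) * u) * c) ≤ s * ((s + 2) * f) := by
        nlinarith
      have h5 := le_of_mul_le_mul_left h4 (by linarith : (0 : ℝ) < s)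
      have h6 : (((s + 1 : ℕ) : ℝ) + 1) = (s : ℝ) + 2 := by push_cast; ring
      have h7 : ((s + 1 : ℕ) : ℝ) = (s : ℝ) + 1 := by push_cast; ring
      rw [h6, h7]
      exact h5
  intro s hs hsm
  obtain ⟨h1, h2⟩ := key s hs hsm
  refine ⟨h1, ?_⟩
  refine le_trans ?_ h2
  have h3 : D ≤ N * (1 - s * u) := by
    refine hmu.trans ?_
    apply mul_le_mul_of_nonneg_left _ hN0.le
    have h4 : (s : ℝ) ≤ m - 1 := by
      have : ((s + 1 : ℕ) : ℝ) ≤ (m : ℝ) := by exact_mod_cast hsm
      push_cast at this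
      linarith
    have h5 : (s : ℝ) * u ≤ (m - 1) * u := mul_le_mul_of_nonneg_right h4 hu0.le
    linarith
  exact mul_le_mul_of_nonneg_right h3 (Nat.cast_nonneg _)

end Pool.Agent.D0H10.DF
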