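import Pool.Agent.D0H10.DF.Eqv
import Pool.Agent.N428.FM.Disj

/-!
# Sharpness of the density
-/

set_option autoImplicit false

namespace Pool.Agent.D0H10.DF

open Finset Polynomial Pool.Agent.R580.CD

/-- There are arbitrarily large flag spheres of dimension `2 m - 1` with density `1 - 1 / (m - 1)` and
vanishing Charney-Davis quantity. -/
theorem t_SHARP : ∀ (m N : ℕ), 2 ≤ m →
    ∃ (W : Type) (_ : Fintype W) (_ : LinearOrder W) (H : SimpleGraph W),
      GHS (2 * m) H ∧ N ≤ Fintype.card W ∧ omega H = 0 ∧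
      (kq H 2 : ℝ) = (1 - 1 / ((m : ℝ) - 1)) * (Fintype.card W : ℝ) ^ 2 / 2 +
        (m + 3) / (m - 1) * Fintype.card W - 8 * m / (m - 1) := by
  intro m N hm
  obtain ⟨V, _, _, G, h1, h2, h3⟩ := Pool.Agent.N428.FM.exists_sph (m := 4) le_rfl 0
  have hom : omega G = 0 := by
    rw [omega_eq, h3]
    have h4 : ev (1 + 2 * Polynomial.X : ℤ[X]) = 0 := by
      rw [map_add, map_mul, map_one, ev_X]
      have h5 : ev (2 : Polynomial ℤ) = 2 := by
        rw [show (2 : Polynomial ℤ) = 1 + 1 by norm_num, map_add, map_one]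
        norm_num
      rw [h5]
      norm_num
    rw [map_add, map_pow, map_mul, map_mul, h4]
    simp
  have he : kq G 2 = 4 := by
    have h4 := t_COEF V G 2
    rw [h3] at h4
    have h5 : ((((4 : ℕ) : Polynomial ℤ) - 4) * (Polynomial.X + Polynomial.X ^ 2) *
        (1 + 2 * Polynomial.X) ^ (2 * 0) + (1 + 2 * Polynomial.X) ^ (2 * 0 + 2) : ℤ[X]) =
        1 + C 4 * Polynomial.X + C 4 * Polynomial.X ^ 2 := by
      have : (C 4 : ℤ[X]) = 4 := rfl
      rw [this]
      push_cast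
      ring
    rw [h5] at h4
    have h6 : (1 + C 4 * Polynomial.X + C 4 * Polynomial.X ^ 2 : ℤ[X]).coeff 2 = 4 := by
      rw [Polynomial.coeff_add, Polynomial.coeff_add, Polynomial.coeff_C_mul, Polynomial.coeff_C_mul,
        Polynomial.coeff_X_pow, Polynomial.coeff_X, Polynomial.coeff_one]
      norm_num
    rw [h6] at h4
    exact_mod_cast h4.symm
  obtain ⟨j, rfl⟩ : ∃ j, m = 1 + j := ⟨m - 1, by omega⟩
  have hj : 1 ≤ j := by omega
  have hj1 : (1 : ℝ) ≤ j := by exact_mod_cast hj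
  have h1' : GHS (2 * 1) G := h1
  obtain ⟨W, i1, i2, H, k1, k2, k3, k4⟩ := joins0 h1' (M := N + 4) (by omega) j
  refine ⟨W, i1, i2, H, k1, ?_, ?_, ?_⟩
  · rw [k2]
    nlinarith [Nat.zero_le (Fintype.card V)]
  · rw [k3, hom, mul_zero]
  · rw [k4, k2, h2, he]
    push_cast
    have hj0 : (j : ℝ) ≠ 0 := by linarith
    have hj2 : (1 + (j : ℝ)) - 1 = j := by ring
    rw [hj2]
    field_simp
    ring

end Pool.Agent.D0H10.DF
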