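import Pool.Agent.R580.CD.Amp
import Pool.Agent.R580.CD.Gam

/-!
# Project DF: the Charney-Davis inequality for dense flag spheres: statements of the modules

`kq G s` is the number of the cliques of `G` with `s` vertices.
-/

set_option autoImplicit false

namespace Pool.Agent.D0H10.DF

open Finset Polynomial Pool.Agent.R580.CD

/-- the number of the cliques with `s` vertices -/
noncomputable def kq {V : Type} (G : SimpleGraph V) (s : ℕ) : ℕ :=
  {T : Finset V | G.IsClique (T : Set V) ∧ T.card = s}.ncard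

/-- `b m j = ∑_{i ≤ m - j} C(2 m + 1 - j, i)` for `j ≤ m`, and `0` for `j > m` -/
def b (m j : ℕ) : ℤ := if j ≤ m then ∑ i ∈ range (m - j + 1), ((2 * m + 1 - j).choose i : ℤ) else 0

/-- MM (Moon, Moser): for `s ≥ 1`
`(s + 1)² k_{s+1}² ≤ k_s (s (s + 2) k_{s+2} + N k_{s+1})`. -/
def S_MM : Prop := ∀ (V : Type) [Fintype V] (G : SimpleGraph V) (s : ℕ), 1 ≤ s →
  (s + 1) ^ 2 * kq G (s + 1) ^ 2 ≤
    kq G s * (s * (s + 2) * kq G (s + 2) + Fintype.card V * kq G (s + 1))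

/-- RAT: in a dense graph all ratios are large.  If `2 (m - 1) e ≥ (m - 2) N² + D N`, `D > 0` real,
then `k_s > 0` and `(s + 1) k_{s+1} ≥ D k_s` for all `1 ≤ s ≤ m - 1`, and `N > D`. -/
def S_RAT : Prop := ∀ (V : Type) [Fintype V] (G : SimpleGraph V) (m : ℕ) (D : ℝ), 2 ≤ m → 0 < D →
  0 < Fintype.card V →
  ((m : ℝ) - 2) * (Fintype.card V : ℝ) ^ 2 + D * Fintype.card V ≤ 2 * ((m : ℝ) - 1) * kq G 2 →
  D < Fintype.card V ∧ ∀ s : ℕ, 1 ≤ s → s + 1 ≤ m →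
    0 < kq G s ∧ D * kq G s ≤ (s + 1) * (kq G (s + 1) : ℝ)

/-- POLY: for a polynomial `p` of degree at most `2 m` with `p(-1-x) = p(x)`:
`(-4)^m p(-1/2) = ∑_{j ≤ m} (-1)^(m-j) b m j p_j`. -/
def S_POLY : Prop := ∀ (m : ℕ) (p : ℤ[X]), p.natDegree ≤ 2 * m → p.comp (-1 - X) = p →
  (-4 : ℚ) ^ m * ev p = ((∑ j ∈ range (m + 1), (-1) ^ (m - j) * b m j * p.coeff j : ℤ) : ℚ)

/-- RB: `(j + 1) b_j ≤ m (m + 3) b_{j+1}` for `j < m`; `b_m = 1`, `b_0 = 4^m`, all `b_j` are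
positive. -/
def S_RB : Prop := ∀ m : ℕ, b m m = 1 ∧ b m 0 = 4 ^ m ∧ (∀ j, j ≤ m → 0 < b m j) ∧
  ∀ j, j < m → (j + 1) * b m j ≤ m * (m + 3) * b m (j + 1)

/-- COEF: the coefficients of the face polynomial are the numbers of cliques. -/
def S_COEF : Prop := ∀ (V : Type) [Fintype V] [LinearOrder V] (G : SimpleGraph V) (s : ℕ),
  (fp G Set.univ).coeff s = (kq G s : ℤ)

/-- DENSE: the Charney-Davis inequality for dense flag homology spheres over one field. -/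
def S_DENSE : Prop := ∀ (F : Type) [Field F] (V : Type) [Fintype V] [LinearOrder V]
  (G : SimpleGraph V) (m : ℕ), 2 ≤ m → Sph F (2 * m) G →
  ((m : ℝ) - 2) * (Fintype.card V : ℝ) ^ 2 + m * (m + 3) * Fintype.card V ≤
    2 * ((m : ℝ) - 1) * kq G 2 →
  0 < (-1 : ℚ) ^ m * omega G

/-- EQV: a counterexample of dimension `2 n - 1` gives dense counterexamples of dimension
`2 (n + j) - 1`, for every `j ≥ 1` and every `C`. -/
def S_EQV : Prop := ∀ (V : Type) [Fintype V] [LinearOrder V] (G : SimpleGraph V) (n j : ℕ) (C : ℝ),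
  1 ≤ n → 1 ≤ j → GHS (2 * n) G → (-1 : ℚ) ^ n * omega G < 0 →
  ∀ N : ℕ, ∃ (W : Type) (_ : Fintype W) (_ : LinearOrder W) (H : SimpleGraph W),
    GHS (2 * (n + j)) H ∧ N ≤ Fintype.card W ∧
    (1 - 1 / (j : ℝ)) * (Fintype.card W : ℝ) ^ 2 / 2 + C * Fintype.card W ≤ kq H 2 ∧
    (-1 : ℚ) ^ (n + j) * omega H < 0

end Pool.Agent.D0H10.DF
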